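import Pool.Agent.R246.SK.Defs

/-! # MP_3f9991_gt, piece SK-BD: bound of the difference of the quadratic forms -/

open scoped ContDiff ComplexConjugate
open Filter MeasureTheory

namespace Pool.Agent.R246.SK

noncomputable section

theorem bd_cs (a g : ℝ → ℝ) (ha : Continuous a) (hpos : ∀ t, 0 < a t) (hg : Continuous g) :
    (∫ t in (0 : ℝ)..(2 * Real.pi), g t) ^ 2 ≤
      (∫ t in (0 : ℝ)..(2 * Real.pi), g t ^ 2 / a t) * ∫ t in (0 : ℝ)..(2 * Real.pi), a t := by
  have hpi : (0 : ℝ) ≤ 2 * Real.pi := by positivity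
  have hne : ∀ t, a t ≠ 0 := fun t => (hpos t).ne'
  have hc : Continuous (fun t => g t ^ 2 / a t) := (hg.pow 2).div ha hne
  have key : ∀ x : ℝ, 0 ≤ (∫ t in (0 : ℝ)..(2 * Real.pi), g t ^ 2 / a t) * (x * x) +
      (-2 * ∫ t in (0 : ℝ)..(2 * Real.pi), g t) * x + ∫ t in (0 : ℝ)..(2 * Real.pi), a t := by
    intro x
    have h1 : 0 ≤ ∫ t in (0 : ℝ)..(2 * Real.pi), (g t * x - a t) ^ 2 / a t := by
      apply intervalIntegral.integral_nonneg hpi
      intro t _
      exact div_nonneg (sq_nonneg _) (hpos t).le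
    have h2 : (∫ t in (0 : ℝ)..(2 * Real.pi), (g t * x - a t) ^ 2 / a t) =
        (∫ t in (0 : ℝ)..(2 * Real.pi), g t ^ 2 / a t) * (x * x) +
      (-2 * ∫ t in (0 : ℝ)..(2 * Real.pi), g t) * x + ∫ t in (0 : ℝ)..(2 * Real.pi), a t := by
      have e1 : (fun t => (g t * x - a t) ^ 2 / a t) =
          fun t => ((g t ^ 2 / a t) * (x * x) + (g t) * (-2 * x)) + a t := by
        funext t
        have := hne t
        field_simp
        ring
      rw [e1, intervalIntegral.integral_add, intervalIntegral.integral_add,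
        intervalIntegral.integral_mul_const, intervalIntegral.integral_mul_const]
      · ring
      · exact (hc.mul continuous_const).intervalIntegrable _ _
      · exact (hg.mul continuous_const).intervalIntegrable _ _
      · exact ((hc.mul continuous_const).add (hg.mul continuous_const)).intervalIntegrable _ _
      · exact ha.intervalIntegrable _ _
    rw [← h2]
    exact h1
  have h3 := discrim_le_zero key
  unfold discrim at h3
  nlinarith

theorem bd_fc (f : ℝ → ℂ) (k : ℤ) :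
    ‖fc f k‖ ≤ (1 / (2 * Real.pi)) * ∫ t in (0 : ℝ)..(2 * Real.pi), ‖f t‖ := by
  have hpi : (0 : ℝ) ≤ 2 * Real.pi := by positivity
  unfold fc
  rw [norm_mul, Complex.norm_real, Real.norm_of_nonneg (by positivity)]
  apply mul_le_mul_of_nonneg_left _ (by positivity)
  calc ‖∫ t in (0 : ℝ)..(2 * Real.pi), f t * ee (-k) t‖
      ≤ ∫ t in (0 : ℝ)..(2 * Real.pi), ‖f t * ee (-k) t‖ :=
        intervalIntegral.norm_integral_le_integral_norm hpi
    _ = ∫ t in (0 : ℝ)..(2 * Real.pi), ‖f t‖ := by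
        congr 1
        funext t
        rw [norm_mul]
        have : ‖ee (-k) t‖ = 1 := by
          unfold ee
          rw [Complex.norm_exp]
          simp
        rw [this, mul_one]

theorem s_bd (hLAM : S_LAM) (hTT : S_TT) (hKS : S_KS) : S_BD := by
  intro a ha
  obtain ⟨hac, haper, hapos⟩ := ha
  have hacont : Continuous a := hac.continuous
  have hpi : (0 : ℝ) ≤ 2 * Real.pi := by positivity
  have hne : ∀ t, a t ≠ 0 := fun t => (hapos t).ne'
  have hK : Summable (fun p : ℤ × ℤ => ‖Kk a p.1 p.2‖) := by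
    refine Summable.of_nonneg_of_le (fun p => norm_nonneg _) (fun p => ?_)
      (hKS a ⟨hac, haper, hapos⟩)
    have h1 : (1 : ℝ) ≤ (1 + |(p.1 : ℝ)|) ^ 2 := by
      have := abs_nonneg (p.1 : ℝ)
      nlinarith
    have h2 : (1 : ℝ) ≤ (1 + |(p.2 : ℝ)|) ^ 2 := by
      have := abs_nonneg (p.2 : ℝ)
      nlinarith
    calc ‖Kk a p.1 p.2‖ = ‖Kk a p.1 p.2‖ * 1 * 1 := by ring
      _ ≤ ‖Kk a p.1 p.2‖ * (1 + |(p.1 : ℝ)|) ^ 2 * (1 + |(p.2 : ℝ)|) ^ 2 := by
        gcongr
  set A : ℝ := ∫ t in (0 : ℝ)..(2 * Real.pi), a t with hA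
  set S : ℝ := ∑' p : ℤ × ℤ, ‖Kk a p.1 p.2‖ with hS
  refine ⟨2 * Real.pi * (S * ((1 / (2 * Real.pi)) ^ 2 * A)), ?_⟩
  intro f hf
  have hfc : Continuous f := hf.1.continuous
  have hLf : SP (Lam f) := (hLAM f hf).1
  have hLc : Continuous (Lam f) := hLf.1.continuous
  have hdc : Continuous (deriv f) := hf.1.continuous_deriv (by simp)
  -- the inner product
  have hip : ip a f f = ((∫ t in (0 : ℝ)..(2 * Real.pi), ‖f t‖ ^ 2 / a t : ℝ) : ℂ) := by
    unfold ip
    rw [← intervalIntegral.integral_ofReal]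
    congr 1
    funext t
    rw [Complex.mul_conj, Complex.normSq_eq_norm_sq]
    push_cast
    rfl
  have hTTr : TT a f f = (((∫ t in (0 : ℝ)..(2 * Real.pi), a t * ‖Lam f t‖ ^ 2) -
      ∫ t in (0 : ℝ)..(2 * Real.pi), a t * ‖deriv f t‖ ^ 2 : ℝ) : ℂ) := by
    unfold TT
    rw [← intervalIntegral.integral_sub, ← intervalIntegral.integral_ofReal]
    · congr 1
      funext t
      rw [Complex.mul_conj, Complex.normSq_eq_norm_sq, Complex.mul_conj,
        Complex.normSq_eq_norm_sq]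
      push_cast
      ring
    · exact (hacont.mul (hLc.norm.pow 2)).intervalIntegrable _ _
    · exact (hacont.mul (hdc.norm.pow 2)).intervalIntegrable _ _
  set P : ℝ := ∫ t in (0 : ℝ)..(2 * Real.pi), ‖f t‖ ^ 2 / a t with hP
  have hcs := bd_cs a (fun t => ‖f t‖) hacont hapos hfc.norm
  rw [← hP, ← hA] at hcs
  have hPnn : 0 ≤ P := by
    apply intervalIntegral.integral_nonneg hpi
    intro t _
    exact div_nonneg (sq_nonneg _) (hapos t).le
  set F : ℝ := ∫ t in (0 : ℝ)..(2 * Real.pi), ‖f t‖ with hF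
  have hFnn : 0 ≤ F := by
    apply intervalIntegral.integral_nonneg hpi
    intro t _
    exact norm_nonneg _
  have hfb : ∀ k, ‖fc f k‖ ≤ (1 / (2 * Real.pi)) * F := fun k => bd_fc f k
  have hs := hTT a f f ⟨hac, haper, hapos⟩ hf hf
  have hbound : ∀ p : ℤ × ℤ, ‖Kk a p.1 p.2 * fc f p.2 * conj (fc f p.1)‖ ≤
      ‖Kk a p.1 p.2‖ * ((1 / (2 * Real.pi)) ^ 2 * (P * A)) := by
    intro p
    rw [norm_mul, norm_mul, RCLike.norm_conj, mul_assoc]
    apply mul_le_mul_of_nonneg_left _ (norm_nonneg _)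
    calc ‖fc f p.2‖ * ‖fc f p.1‖ ≤ ((1 / (2 * Real.pi)) * F) * ((1 / (2 * Real.pi)) * F) :=
          mul_le_mul (hfb _) (hfb _) (norm_nonneg _) (by positivity)
      _ = (1 / (2 * Real.pi)) ^ 2 * F ^ 2 := by ring
      _ ≤ (1 / (2 * Real.pi)) ^ 2 * (P * A) := by
          apply mul_le_mul_of_nonneg_left hcs (by positivity)
  have hn : ‖((1 / (2 * Real.pi) : ℝ) : ℂ) * TT a f f‖ ≤
      S * ((1 / (2 * Real.pi)) ^ 2 * (P * A)) := by
    rw [← hs.tsum_eq]
    have hsum : Summable (fun p : ℤ × ℤ => ‖Kk a p.1 p.2‖ *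
        ((1 / (2 * Real.pi)) ^ 2 * (P * A))) := hK.mul_right _
    have := tsum_of_norm_bounded hsum.hasSum hbound
    rwa [tsum_mul_right] at this
  rw [norm_mul, Complex.norm_real, Real.norm_of_nonneg (by positivity), hTTr,
    Complex.norm_real, Real.norm_eq_abs] at hn
  rw [hip, Complex.ofReal_re]
  have hpp : (0 : ℝ) < 2 * Real.pi := by positivity
  calc |(∫ t in (0 : ℝ)..(2 * Real.pi), a t * ‖Lam f t‖ ^ 2) -
      ∫ t in (0 : ℝ)..(2 * Real.pi), a t * ‖deriv f t‖ ^ 2|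
      = 2 * Real.pi * (1 / (2 * Real.pi) * |(∫ t in (0 : ℝ)..(2 * Real.pi), a t * ‖Lam f t‖ ^ 2) -
      ∫ t in (0 : ℝ)..(2 * Real.pi), a t * ‖deriv f t‖ ^ 2|) := by
        field_simp
    _ ≤ 2 * Real.pi * (S * ((1 / (2 * Real.pi)) ^ 2 * (P * A))) :=
        mul_le_mul_of_nonneg_left hn hpp.le
    _ = 2 * Real.pi * (S * ((1 / (2 * Real.pi)) ^ 2 * A)) * P := by ring

end

end Pool.Agent.R246.SK
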